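import Pool.Agent.Y254.EL.Rem
set_option autoImplicit false

/-!
# Removal of the loss for classes of families of tubes closed under scaling
-/

open MeasureTheory Set Metric
open scoped ENNReal NNReal

namespace Pool.Agent.X160.Er
open Pool.Agent.Y254 (mult mult_meas mult_le mult_ne_top mult_zero_or pmult pmult_eq sum_card_parts
  floor_near)
open Pool.Agent.Y254.EL

variable {d : ℕ}

/-- A class of families of lines at scale `δ`, closed under subfamilies, under isotropic zooms and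
under the anisotropic scalings. -/
structure Cls (d : ℕ) where
  /-- membership -/
  mem : ℝ → ∀ {ι : Type}, (ι → Fin d → ℝ) → (ι → Fin d → ℝ) → Prop
  sub : ∀ {δ : ℝ} {ι κ : Type} {P v : ι → Fin d → ℝ} (f : κ → ι), mem δ P v →
    mem δ (fun k => P (f k)) (fun k => v (f k))
  zoom : ∀ {δ ρ : ℝ} {ι : Type} {P v : ι → Fin d → ℝ} (x0 : Pt d), 0 < δ → δ < ρ → ρ ≤ 1 →
    mem δ P v → mem (δ / ρ) (fun i => ρ⁻¹ • (P i + x0.1 • v i - x0.2)) v
  cell : ∀ {δ s : ℝ} {ι : Type} {P v : ι → Fin d → ℝ} (v0 : Fin d → ℝ), 0 < δ → δ < s →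
    mem δ P v → mem (δ / s) (fun i => s⁻¹ • P i) (fun i => s⁻¹ • (v i - v0))

/-- A family with its constants satisfies the scale-invariant inequality with a small loss. -/
def LoC (𝒞 : Cls d) (R q ε C : ℝ) : Prop := ∀ δ : ℝ, 0 < δ → δ < 1 → ∀ {ι : Type} [Fintype ι]
    (b : ι → ℝ) (P v : ι → Fin d → ℝ), (∀ i, ‖v i‖ ≤ 1) → Sep δ v → 𝒞.mem δ P v →
    ∫⁻ x, mult (fun i => tb R (R * δ) (b i) (P i) (v i)) x ^ q ≤
      ENNReal.ofReal (C * (δ ^ (-ε) * (δ ^ d * (Fintype.card ι : ℝ) ^ (q - 1 / (d : ℝ)))))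

/-- The inequality for families which are less separated than their width. -/
theorem less_sep (𝒞 : Cls d) (hd : 1 ≤ d) {R q ε C : ℝ} (hq : 1 + 1 / (d : ℝ) ≤ q) (hC : 0 ≤ C)
    (hlo : LoC 𝒞 R q ε C) {δ τ : ℝ} (hδ : 0 < δ) (hτ : δ ≤ τ) (hτ1 : τ < 1)
    {ι : Type} [Fintype ι] (b : ι → ℝ) (P v : ι → Fin d → ℝ) (hv : ∀ i, ‖v i‖ ≤ 1) (hs : Sep δ v)
    (hcl : 𝒞.mem τ P v) :
    ∫⁻ x, mult (fun i => tb R (R * τ) (b i) (P i) (v i)) x ^ q ≤
      ENNReal.ofReal (C * (τ ^ (-ε) * (τ ^ d * (2 * (2 * τ / δ + 2) *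
        (Fintype.card ι : ℝ) ^ (q - 1 / (d : ℝ)))))) := by
  have hτ0 : 0 < τ := by linarith
  have hd0 : (0 : ℝ) < d := by exact_mod_cast hd
  have hp0 : 0 < 1 / (d : ℝ) := by positivity
  have hq0 : 0 < q := by linarith
  have hq1 : 1 ≤ q := by linarith
  obtain ⟨D, _, _, κ, hD, hκ⟩ := coloring hδ hτ hs
  set T : ι → Set (Pt d) := fun i => tb R (R * τ) (b i) (P i) (v i) with hT
  have hTm : ∀ i, MeasurableSet (T i) := fun i => tb_meas _ _ _ _ _
  set p : ℝ := 1 / (d : ℝ) with hp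
  set θ : ℝ := 1 - p / q with hθ
  have hpq : p / q < 1 := by rw [div_lt_one hq0]; linarith
  have hθ0 : 0 < θ := by rw [hθ]; linarith
  have hθ1 : θ ≤ 1 := by
    have : 0 ≤ p / q := by positivity
    rw [hθ]; linarith
  have hsum : ∀ x, mult T x = ∑ c : D, pmult T κ c x := by
    intro x
    unfold mult pmult
    rw [Finset.sum_comm]
    refine Finset.sum_congr rfl fun i _ => ?_
    rw [Finset.sum_ite_eq, if_pos (Finset.mem_univ _)]
  set n : D → ℝ := fun c => (Fintype.card {i // κ i = c} : ℝ) with hn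
  have hn0 : ∀ c, 0 ≤ n c := fun c => by positivity
  have hpart : ∀ c : D, ∫⁻ x, pmult T κ c x ^ q ≤
      ENNReal.ofReal (C * (τ ^ (-ε) * (τ ^ d * n c ^ (q - p)))) := by
    intro c
    simp only [pmult_eq]
    exact hlo τ hτ0 hτ1 (fun i : {i // κ i = c} => b i) (fun i : {i // κ i = c} => P i)
      (fun i : {i // κ i = c} => v i) (fun i => hv i) (fun i j hij =>
        hκ i j (i.2.trans j.2.symm) (fun h => hij (Subtype.ext h)))
        (𝒞.sub (fun i : {i // κ i = c} => (i : ι)) hcl)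
  set B : ℝ := C * (τ ^ (-ε) * τ ^ d) with hB
  have hB0 : 0 ≤ B := by positivity
  have hpm : ∀ c : D, Measurable fun x => pmult T κ c x := by
    intro c
    simp only [pmult_eq]
    exact mult_meas fun i => tb_meas _ _ _ _ _
  have hnsum : ∑ c : D, n c = Fintype.card ι := by
    have h1 := sum_card_parts κ
    rw [← h1]
    symm
    apply Finset.sum_subset (Finset.subset_univ _)
    intro c _ hc
    have : IsEmpty {i // κ i = c} := by
      constructor
      rintro ⟨i, hi⟩
      exact hc (Finset.mem_image.2 ⟨i, Finset.mem_univ _, hi⟩)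
    rw [Fintype.card_eq_zero, Nat.cast_zero]
  have hS : ∑ c : D, n c ^ θ ≤ (Fintype.card D : ℝ) ^ (p / q) * (Fintype.card ι : ℝ) ^ θ := by
    have h1 := sum_rpow_le (Finset.univ : Finset D) hn0 hθ0 hθ1
    rw [hnsum, Finset.card_univ] at h1
    have h2 : 1 - θ = p / q := by rw [hθ]; ring
    rwa [h2] at h1
  have hroot : (∫⁻ x, mult T x ^ q) ^ (1 / q) ≤ ENNReal.ofReal (B ^ (1 / q) *
      ((Fintype.card D : ℝ) ^ (p / q) * (Fintype.card ι : ℝ) ^ θ)) := by
    simp only [hsum]
    refine (mink volume Finset.univ hpm hq1).trans ?_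
    calc ∑ c : D, (∫⁻ x, pmult T κ c x ^ q) ^ (1 / q)
        ≤ ∑ c : D, ENNReal.ofReal (B ^ (1 / q) * n c ^ θ) := by
          apply Finset.sum_le_sum
          intro c _
          refine (ENNReal.rpow_le_rpow (hpart c) (by positivity)).trans (le_of_eq ?_)
          rw [ENNReal.ofReal_rpow_of_nonneg (by positivity) (by positivity)]
          congr 1
          have h1 : C * (τ ^ (-ε) * (τ ^ d * n c ^ (q - p))) = B * n c ^ (q - p) := by
            rw [hB]; ring
          rw [h1, Real.mul_rpow hB0 (by positivity), ← Real.rpow_mul (hn0 c)]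
          congr 2
          rw [hθ]
          field_simp
      _ = ENNReal.ofReal (B ^ (1 / q) * ∑ c : D, n c ^ θ) := by
          rw [← ENNReal.ofReal_sum_of_nonneg (fun c _ => by positivity), ← Finset.mul_sum]
      _ ≤ _ := by
          apply ENNReal.ofReal_le_ofReal
          gcongr
  have h5 : ∫⁻ x, mult T x ^ q = ((∫⁻ x, mult T x ^ q) ^ (1 / q)) ^ q := by
    rw [← ENNReal.rpow_mul, one_div, inv_mul_cancel₀ hq0.ne', ENNReal.rpow_one]
  rw [h5]
  refine (ENNReal.rpow_le_rpow hroot hq0.le).trans ?_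
  rw [ENNReal.ofReal_rpow_of_nonneg (by positivity) hq0.le]
  apply ENNReal.ofReal_le_ofReal
  have e1 : p / q * q = p := by field_simp
  have e2 : θ * q = q - p := by rw [hθ]; field_simp
  have e3 : (B ^ (1 / q)) ^ q = B := by
    rw [← Real.rpow_mul hB0, one_div, inv_mul_cancel₀ hq0.ne', Real.rpow_one]
  have e4 : ((Fintype.card D : ℝ) ^ (p / q)) ^ q = (Fintype.card D : ℝ) ^ p := by
    rw [← Real.rpow_mul (Nat.cast_nonneg _), e1]
  have e5 : ((Fintype.card ι : ℝ) ^ θ) ^ q = (Fintype.card ι : ℝ) ^ (q - p) := by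
    rw [← Real.rpow_mul (Nat.cast_nonneg _), e2]
  rw [Real.mul_rpow (x := B ^ (1 / q)) (by positivity) (by positivity),
    Real.mul_rpow (x := (Fintype.card D : ℝ) ^ (p / q)) (by positivity) (by positivity), e3, e4, e5]
  have h6 : (Fintype.card D : ℝ) ^ p ≤ 2 * (2 * τ / δ + 2) := by
    calc (Fintype.card D : ℝ) ^ p ≤ ((2 * (2 * τ / δ + 2)) ^ d) ^ p := by gcongr
      _ = 2 * (2 * τ / δ + 2) := by
          rw [← Real.rpow_natCast, ← Real.rpow_mul (by positivity), hp, mul_one_div,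
            div_self hd0.ne', Real.rpow_one]
  calc B * ((Fintype.card D : ℝ) ^ p * (Fintype.card ι : ℝ) ^ (q - p))
      ≤ B * (2 * (2 * τ / δ + 2) * (Fintype.card ι : ℝ) ^ (q - p)) := by gcongr
    _ = _ := by rw [hB]; ring

/-- The local form of the inequality. -/
theorem zoom (𝒞 : Cls d) (hd : 1 ≤ d) {R q ε C : ℝ} (hR : 1 ≤ R) (hq : 1 + 1 / (d : ℝ) ≤ q) (hC : 0 ≤ C)
    (hlo : LoC 𝒞 R q ε C) {δ ρ : ℝ} (hδ : 0 < δ) (hρ : δ < ρ) (hρ1 : ρ ≤ 1) (x0 : Pt d)
    {ι : Type} [Fintype ι] (b : ι → ℝ) (P v : ι → Fin d → ℝ) (hv : ∀ i, ‖v i‖ ≤ 1) (hs : Sep δ v)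
    (hcl : 𝒞.mem δ P v) :
    ∫⁻ x in closedBall x0 ρ, mult (fun i => tb R (R * δ) (b i) (P i) (v i)) x ^ q ≤
      ENNReal.ofReal (8 * C * ((ρ / δ) ^ ε * (δ ^ d *
        (Fintype.card ι : ℝ) ^ (q - 1 / (d : ℝ))))) := by
  have hρ0 : 0 < ρ := by linarith
  have hq0 : 0 < q := by
    have : 0 ≤ 1 / (d : ℝ) := by positivity
    linarith
  set T : ι → Set (Pt d) := fun i => tb R (R * δ) (b i) (P i) (v i) with hT
  have hTm : ∀ i, MeasurableSet (T i) := fun i => tb_meas _ _ _ _ _
  set P' : ι → Fin d → ℝ := fun i => ρ⁻¹ • (P i + x0.1 • v i - x0.2) with hP'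
  set τ : ℝ := δ / ρ with hτ
  have hτ1 : τ < 1 := by rw [hτ, div_lt_one hρ0]; exact hρ
  have hτδ : δ ≤ τ := by
    rw [hτ, le_div_iff₀ hρ0]
    nlinarith
  set T' : ι → Set (Pt d) := fun i => tb R (R * τ) 0 (P' i) (v i) with hT'
  have hmem : ∀ i z, x0 + ρ • z ∈ closedBall x0 ρ → x0 + ρ • z ∈ T i → z ∈ T' i := by
    intro i z hz hzi
    rw [mem_closedBall, dist_eq_norm, add_sub_cancel_left, norm_smul, Real.norm_eq_abs,
      abs_of_pos hρ0] at hz
    have hz1 : ‖z‖ ≤ 1 := by
      by_contra hcon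
      rw [not_le] at hcon
      nlinarith
    refine ⟨?_, ?_⟩
    · rw [sub_zero]
      have := (norm_fst_le z).trans hz1
      rw [Real.norm_eq_abs] at this
      linarith
    · have h1 := hzi.2
      have h2 : z.2 - P' i - z.1 • v i =
          ρ⁻¹ • ((x0 + ρ • z).2 - P i - (x0 + ρ • z).1 • v i) := by
        rw [hP']
        simp only [Prod.snd_add, Prod.fst_add, Prod.smul_snd, Prod.smul_fst, smul_eq_mul]
        have h3 : z.2 = ρ⁻¹ • (ρ • z.2) := by rw [smul_smul, inv_mul_cancel₀ hρ0.ne', one_smul]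
        have h4 : z.1 • v i = ρ⁻¹ • ((ρ * z.1) • v i) := by
          rw [smul_smul, ← mul_assoc, inv_mul_cancel₀ hρ0.ne', one_mul]
        nth_rewrite 1 [h3]
        rw [h4, ← smul_sub, ← smul_sub, add_smul]
        congr 1
        abel
      rw [h2, norm_smul, norm_inv, Real.norm_eq_abs, abs_of_pos hρ0]
      calc ρ⁻¹ * ‖(x0 + ρ • z).2 - P i - (x0 + ρ • z).1 • v i‖ ≤ ρ⁻¹ * (R * δ) := by gcongr
        _ = R * τ := by rw [hτ]; ring
  have hmain : ∫⁻ x in closedBall x0 ρ, mult T x ^ q ≤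
      ENNReal.ofReal (ρ ^ (d + 1)) * ∫⁻ z, mult T' z ^ q := by
    rw [← lintegral_indicator measurableSet_closedBall, lint_zoom hρ0 x0
      (((mult_meas hTm).pow_const q).indicator measurableSet_closedBall)]
    gcongr with z
    by_cases hz : x0 + ρ • z ∈ closedBall x0 ρ
    · rw [indicator_of_mem hz]
      gcongr
      unfold mult
      apply Finset.sum_le_sum
      intro i _
      by_cases hi : x0 + ρ • z ∈ T i
      · rw [indicator_of_mem hi, indicator_of_mem (hmem i z hz hi)]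
        exact le_rfl
      · rw [indicator_of_notMem hi]; exact zero_le
    · rw [indicator_of_notMem hz]; exact zero_le
  refine hmain.trans ?_
  refine (mul_le_mul_right (less_sep 𝒞 hd hq hC hlo hδ hτδ hτ1 (fun _ => 0) P' v hv hs
    (𝒞.zoom x0 hδ hρ hρ1 hcl)) _).trans ?_
  rw [← ENNReal.ofReal_mul (by positivity)]
  apply ENNReal.ofReal_le_ofReal
  have h1 : 2 * (2 * τ / δ + 2) ≤ 8 / ρ := by
    have h2 : τ / δ = 1 / ρ := by rw [hτ]; field_simp
    have h3 : (1 : ℝ) ≤ 1 / ρ := by rw [le_div_iff₀ hρ0]; linarith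
    have h4 : 2 * (2 * τ / δ + 2) = 4 * (τ / δ) + 4 := by ring
    have h5 : 8 / ρ = 8 * (1 / ρ) := by ring
    rw [h4, h2, h5]
    linarith
  have h2 : τ ^ (-ε) = (ρ / δ) ^ ε := by
    rw [Real.rpow_neg (by positivity), ← Real.inv_rpow (by positivity), hτ, inv_div]
  rw [h2]
  calc ρ ^ (d + 1) * (C * ((ρ / δ) ^ ε * (τ ^ d * (2 * (2 * τ / δ + 2) *
        (Fintype.card ι : ℝ) ^ (q - 1 / (d : ℝ))))))
      ≤ ρ ^ (d + 1) * (C * ((ρ / δ) ^ ε * (τ ^ d * (8 / ρ *
        (Fintype.card ι : ℝ) ^ (q - 1 / (d : ℝ)))))) := by gcongr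
    _ = _ := by
        rw [hτ, div_pow, pow_succ]
        field_simp


/-- The inequality on the set of very high multiplicity. -/
theorem key (𝒞 : Cls d) (hd : 1 ≤ d) {R q ε C : ℝ} (hR : 1 ≤ R) (hq : 1 + 1 / (d : ℝ) ≤ q) (hC : 0 ≤ C)
    (hε : 0 ≤ ε) (hlo : LoC 𝒞 R q ε C) {δ L : ℝ} (hδ : 0 < δ) (hδ1 : δ < 1) (hL : 1 ≤ L)
    {ι : Type} [Fintype ι] [Nonempty ι] (b : ι → ℝ) (P v : ι → Fin d → ℝ) (hv : ∀ i, ‖v i‖ ≤ 1)
    (hs : Sep δ v) (hcl : 𝒞.mem δ P v) (hM : (1 / δ) ^ d ≤ L * Fintype.card ι) :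
    ∫⁻ x in {x | ENNReal.ofReal (Fintype.card ι / L) ≤
        mult (fun i => tb R (R * δ) (b i) (P i) (v i)) x},
      mult (fun i => tb R (R * δ) (b i) (P i) (v i)) x ^ q ≤
      ENNReal.ofReal (8 * C * ((41088 * R * L ^ 7) ^ ε * (δ ^ d *
        (2 * (Fintype.card ι : ℝ)) ^ (q - 1 / (d : ℝ))))) := by
  classical
  set T : ι → Set (Pt d) := fun i => tb R (R * δ) (b i) (P i) (v i) with hT
  have hTm : ∀ i, MeasurableSet (T i) := fun i => tb_meas _ _ _ _ _
  set M : ℝ := (Fintype.card ι : ℝ) with hMdef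
  have hM0 : 0 < M := by
    rw [hMdef]
    exact_mod_cast Fintype.card_pos
  have hL0 : 0 < L := by linarith
  have hd0 : (0 : ℝ) < d := by exact_mod_cast hd
  have hp0 : 0 < 1 / (d : ℝ) := by positivity
  have hq0 : 0 < q := by linarith
  have hβ : 1 ≤ q - 1 / (d : ℝ) := by linarith
  have hL1 : 1 ≤ L ^ 3 := one_le_pow₀ hL
  have hL36 : L ^ 3 ≤ L ^ 6 := pow_le_pow_right₀ hL (by norm_num)
  have hL37 : L ^ 3 ≤ L ^ 7 := pow_le_pow_right₀ hL (by norm_num)
  rcases lt_or_ge 1 (41088 * R * L ^ 7 * δ) with hcase | hcase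
  · -- the inequality itself
    refine (setLIntegral_le_lintegral _ _).trans ((hlo δ hδ hδ1 b P v hv hs hcl).trans ?_)
    apply ENNReal.ofReal_le_ofReal
    have h1 : δ ^ (-ε) ≤ (41088 * R * L ^ 7) ^ ε := by
      rw [Real.rpow_neg hδ.le, ← Real.inv_rpow hδ.le]
      apply Real.rpow_le_rpow (by positivity) _ hε
      rw [inv_le_iff_one_le_mul₀ hδ]
      exact hcase.le
    calc C * (δ ^ (-ε) * (δ ^ d * M ^ (q - 1 / (d : ℝ))))
        ≤ C * ((41088 * R * L ^ 7) ^ ε * (δ ^ d * (2 * M) ^ (q - 1 / (d : ℝ)))) := by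
          gcongr
          linarith
      _ ≤ 8 * C * ((41088 * R * L ^ 7) ^ ε * (δ ^ d * (2 * M) ^ (q - 1 / (d : ℝ)))) := by
          have : 0 ≤ C * ((41088 * R * L ^ 7) ^ ε * (δ ^ d * (2 * M) ^ (q - 1 / (d : ℝ)))) := by
            positivity
          linarith
  set S : Set (Pt d) := {x | ENNReal.ofReal (M / L) ≤ mult T x} with hS
  set r0 : ℝ := 128 * R * L ^ 3 * δ with hr0
  set ρ1 : ℝ := 20480 * R * L ^ 6 * δ with hρ1
  set ρ : ℝ := 41088 * R * L ^ 7 * δ with hρ
  have hRδ : 0 < R * δ := by positivity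
  have hRL3 : R * δ ≤ R * δ * L ^ 3 := le_mul_of_one_le_right hRδ.le hL1
  have hRL36 : R * δ * L ^ 3 ≤ R * δ * L ^ 6 := by gcongr
  have hRL37 : R * δ * L ^ 3 ≤ R * δ * L ^ 7 := by gcongr
  have hLδ : 32 * L ^ 3 * δ ≤ 1 := by
    refine le_trans ?_ hcase
    have h1 : L ^ 3 * δ ≤ R * (L ^ 3 * δ) := le_mul_of_one_le_left (by positivity) hR
    have h2 : R * (L ^ 3 * δ) = R * δ * L ^ 3 := by ring
    have h3 : ρ = 41088 * (R * δ * L ^ 7) := by rw [hρ]; ring
    rw [h3]
    nlinarith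
  obtain ⟨X, hXS, hXc, hXcov⟩ := exists_max_sep S (r := r0) (B := 2 * L) (by positivity)
    (fun X hX hsep => few_points hd hR hδ hL b P v hv hs hM hLδ X (fun x hx => hX x hx) hsep)
  obtain ⟨κ, hκX, hκd, hκs⟩ := clusters X (ρ := ρ1) (by positivity)
  set m : ι → Pt d → Prop := fun i x => ∃ z ∈ closedBall x r0, z ∈ T i with hm
  set pI : Pt d → ι → Prop := fun c i => ∃ x ∈ X, κ x = c ∧ m i x with hpI
  set n : Pt d → ℝ := fun c => (Fintype.card {i // pI c i} : ℝ) with hn
  have hn0 : ∀ c, 0 ≤ n c := fun c => by positivity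
  -- the total number of tubes
  have hcount : ∑ c ∈ X.image κ, n c ≤ 2 * M := by
    have h1 := cluster_count X κ m
    have h2 : ∀ c ∈ X.image κ,
        n c = ((Finset.univ.filter fun i => ∃ x ∈ X, κ x = c ∧ m i x).card : ℝ) := by
      intro c _
      rw [hn]
      dsimp only
      rw [Fintype.card_subtype]
    rw [Finset.sum_congr rfl h2]
    refine h1.trans ?_
    have h3 : ∑ z ∈ (X ×ˢ X).filter (fun z => κ z.1 ≠ κ z.2),
        ((Finset.univ.filter fun i => m i z.1 ∧ m i z.2).card : ℝ) ≤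
        ((X.card : ℝ) * X.card) * (2 / 8 * (M / L ^ 2)) := by
      have h4 : ∀ z ∈ (X ×ˢ X).filter (fun z => κ z.1 ≠ κ z.2),
          ((Finset.univ.filter fun i => m i z.1 ∧ m i z.2).card : ℝ) ≤ 2 / 8 * (M / L ^ 2) := by
        intro z hz
        rw [Finset.mem_filter, Finset.mem_product] at hz
        refine few_common (A := 8) (a := r0) (D := ρ1) (b := b) (P := P) hd hδ hR hL (by positivity) hM
          (by norm_num) hv hs (hκs z.1 hz.1.1 z.2 hz.1.2 hz.2) ?_ ?_ ?_ (by norm_num) _ ?_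
        · have e1 : r0 = 128 * (R * δ * L ^ 3) := by rw [hr0]; ring
          have e2 : ρ1 = 20480 * (R * δ * L ^ 6) := by rw [hρ1]; ring
          rw [e1, e2]
          nlinarith
        · have e1 : r0 = 128 * (R * δ * L ^ 3) := by rw [hr0]; ring
          have e2 : ρ1 = 20480 * (R * δ * L ^ 6) := by rw [hρ1]; ring
          rw [e1, e2]
          calc 4 * (2 * (R * δ) + 4 * (128 * (R * δ * L ^ 3))) * (8 * L ^ 3)
              ≤ 4 * (2 * (R * δ * L ^ 3) + 4 * (128 * (R * δ * L ^ 3))) * (8 * L ^ 3) := by gcongr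
            _ = 16448 * (R * δ * L ^ 6) := by ring
            _ ≤ _ := by
                have : 0 < R * δ * L ^ 6 := by positivity
                nlinarith
        · nlinarith
        · intro j hj
          exact (Finset.mem_filter.1 hj).2
      calc ∑ z ∈ (X ×ˢ X).filter (fun z => κ z.1 ≠ κ z.2),
            ((Finset.univ.filter fun i => m i z.1 ∧ m i z.2).card : ℝ)
          ≤ ((X ×ˢ X).filter (fun z => κ z.1 ≠ κ z.2)).card • (2 / 8 * (M / L ^ 2)) :=
            Finset.sum_le_card_nsmul _ _ _ h4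
        _ ≤ _ := by
            rw [nsmul_eq_mul]
            gcongr
            have h6 : ((X ×ˢ X).filter (fun z => κ z.1 ≠ κ z.2)).card ≤ X.card * X.card := by
              refine (Finset.card_filter_le _ _).trans ?_
              rw [Finset.card_product]
            exact_mod_cast h6
    have h5 : ((X.card : ℝ) * X.card) * (2 / 8 * (M / L ^ 2)) ≤ M := by
      calc ((X.card : ℝ) * X.card) * (2 / 8 * (M / L ^ 2))
          ≤ ((2 * L) * (2 * L)) * (2 / 8 * (M / L ^ 2)) := by gcongr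
        _ = M := by field_simp; norm_num
    linarith
  -- the pointwise bound
  set F : Pt d → Pt d → ℝ≥0∞ := fun c x => mult (fun i : {i // pI c i} => T i) x with hF
  have hFm : ∀ c, Measurable (F c) := fun c => mult_meas fun i => hTm i
  have hpt : ∀ y ∈ S, mult T y ^ q ≤
      ∑ c ∈ X.image κ, (closedBall c ρ).indicator (fun y => F c y ^ q) y := by
    intro y hy
    obtain ⟨x, hx, hyx⟩ := hXcov y hy
    have h1 : y ∈ closedBall (κ x) ρ := by
      rw [mem_closedBall]
      refine (dist_triangle _ x _).trans ?_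
      have h2 := hκd x hx
      have h3 : (X.card : ℝ) * ρ1 ≤ 2 * L * ρ1 := by gcongr
      have h4 : 2 * L * ρ1 = 40960 * (R * δ * L ^ 7) := by rw [hρ1]; ring
      have h5 : r0 = 128 * (R * δ * L ^ 3) := by rw [hr0]; ring
      have h6 : ρ = 41088 * (R * δ * L ^ 7) := by rw [hρ]; ring
      linarith
    have h2 : mult T y ≤ F (κ x) y := by
      rw [hF]
      dsimp only
      unfold mult
      rw [← Finset.sum_subtype (Finset.univ.filter fun i => pI (κ x) i) (by simp)
        (fun i => (T i).indicator 1 y), Finset.sum_filter]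
      apply Finset.sum_le_sum
      intro i _
      by_cases hi : y ∈ T i
      · rw [if_pos]
        exact ⟨x, hx, rfl, y, hyx, hi⟩
      · rw [indicator_of_notMem hi]; exact zero_le
    calc mult T y ^ q ≤ F (κ x) y ^ q := ENNReal.rpow_le_rpow h2 hq0.le
      _ = (closedBall (κ x) ρ).indicator (fun y => F (κ x) y ^ q) y := by
          rw [indicator_of_mem h1]
      _ ≤ _ := Finset.single_le_sum
          (f := fun c => (closedBall c ρ).indicator (fun y => F c y ^ q) y)
          (fun _ _ => zero_le) (Finset.mem_image_of_mem κ hx)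
  have hSm : MeasurableSet S := measurableSet_le measurable_const (mult_meas hTm)
  calc ∫⁻ x in S, mult T x ^ q
      ≤ ∫⁻ x in S, ∑ c ∈ X.image κ, (closedBall c ρ).indicator (fun y => F c y ^ q) x :=
        setLIntegral_mono' hSm hpt
    _ ≤ ∫⁻ x, ∑ c ∈ X.image κ, (closedBall c ρ).indicator (fun y => F c y ^ q) x :=
        setLIntegral_le_lintegral _ _
    _ = ∑ c ∈ X.image κ, ∫⁻ x in closedBall c ρ, F c x ^ q := by
        rw [lintegral_finsetSum _ fun c _ => ((hFm c).pow_const q).indicator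
          measurableSet_closedBall]
        refine Finset.sum_congr rfl fun c _ => ?_
        rw [lintegral_indicator measurableSet_closedBall]
    _ ≤ ∑ c ∈ X.image κ, ENNReal.ofReal (8 * C * ((ρ / δ) ^ ε * (δ ^ d *
          n c ^ (q - 1 / (d : ℝ))))) := by
        apply Finset.sum_le_sum
        intro c _
        refine zoom 𝒞 hd hR hq hC hlo hδ ?_ hcase c (fun i : {i // pI c i} => b i)
          (fun i : {i // pI c i} => P i) (fun i : {i // pI c i} => v i) (fun i => hv i)
          (fun i j hij => hs i j fun h => hij (Subtype.ext h))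
          (𝒞.sub (fun i : {i // pI c i} => (i : ι)) hcl)
        have h1 : 1 ≤ R * L ^ 7 := by
          have : 1 ≤ L ^ 7 := one_le_pow₀ hL
          nlinarith
        have h2 : ρ = 41088 * (R * L ^ 7) * δ := by rw [hρ]; ring
        rw [h2]
        nlinarith
    _ = ENNReal.ofReal (8 * C * ((ρ / δ) ^ ε * (δ ^ d *
          ∑ c ∈ X.image κ, n c ^ (q - 1 / (d : ℝ))))) := by
        rw [← ENNReal.ofReal_sum_of_nonneg (fun c _ => by positivity), Finset.mul_sum,
          Finset.mul_sum, Finset.mul_sum]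
    _ ≤ _ := by
        apply ENNReal.ofReal_le_ofReal
        have h1 : ρ / δ = 41088 * R * L ^ 7 := by rw [hρ]; field_simp
        rw [h1]
        have h2 : ∑ c ∈ X.image κ, n c ^ (q - 1 / (d : ℝ)) ≤ (2 * M) ^ (q - 1 / (d : ℝ)) := by
          refine le_trans ?_ (Real.rpow_le_rpow (Finset.sum_nonneg fun c _ => hn0 c) hcount
            (by linarith))
          exact sum_pow_super _ hn0 hβ
        gcongr


/-- The rescaled form of the key estimate. -/
theorem cell_part (𝒞 : Cls d) (hd : 1 ≤ d) {R q ε C : ℝ} (hR : 1 ≤ R) (hq : 1 + 1 / (d : ℝ) ≤ q) (hC : 0 ≤ C)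
    (hε : 0 ≤ ε) (hlo : LoC 𝒞 R q ε C) {δ s L : ℝ} (hδ : 0 < δ) (hδs : δ < s) (hL : 1 ≤ L)
    {ι : Type} [Fintype ι] [Nonempty ι] (b : ι → ℝ) (P v : ι → Fin d → ℝ)
    (hvv : ∀ i j, ‖v i - v j‖ ≤ s) (hs : Sep δ v) (hcl : 𝒞.mem δ P v)
    (hM : (s / δ) ^ d ≤ L * Fintype.card ι) :
    ∫⁻ x in {x | ENNReal.ofReal (Fintype.card ι / L) ≤
        mult (fun i => tb R (R * δ) (b i) (P i) (v i)) x},
      mult (fun i => tb R (R * δ) (b i) (P i) (v i)) x ^ q ≤
      ENNReal.ofReal (8 * C * ((41088 * R * L ^ 7) ^ ε * (δ ^ d *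
        (2 * (Fintype.card ι : ℝ)) ^ (q - 1 / (d : ℝ))))) := by
  classical
  have hs0 : 0 < s := by linarith
  obtain ⟨i0⟩ : Nonempty ι := inferInstance
  set v0 : Fin d → ℝ := v i0 with hv0
  set T : ι → Set (Pt d) := fun i => tb R (R * δ) (b i) (P i) (v i) with hT
  have hTm : ∀ i, MeasurableSet (T i) := fun i => tb_meas _ _ _ _ _
  set v' : ι → Fin d → ℝ := fun i => s⁻¹ • (v i - v0) with hv'
  set P' : ι → Fin d → ℝ := fun i => s⁻¹ • P i with hP'
  set T' : ι → Set (Pt d) := fun i => tb R (R * (δ / s)) (b i) (P' i) (v' i) with hT'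
  have hTm' : ∀ i, MeasurableSet (T' i) := fun i => tb_meas _ _ _ _ _
  set φ : Pt d → Pt d := fun z => (z.1, s⁻¹ • (z.2 - z.1 • v0)) with hφ
  have hmem : ∀ i z, z ∈ T i ↔ φ z ∈ T' i := by
    intro i z
    have h1 : s⁻¹ • (z.2 - z.1 • v0) - P' i - z.1 • v' i = s⁻¹ • (z.2 - P i - z.1 • v i) := by
      rw [hP', hv']
      dsimp only
      rw [smul_comm z.1 s⁻¹ (v i - v0), ← smul_sub, ← smul_sub, smul_sub z.1]
      congr 1
      abel
    have h2 : ‖s⁻¹ • (z.2 - z.1 • v0) - P' i - z.1 • v' i‖ = s⁻¹ * ‖z.2 - P i - z.1 • v i‖ := by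
      rw [h1, norm_smul, norm_inv, Real.norm_eq_abs, abs_of_pos hs0]
    have h3 : R * (δ / s) = s⁻¹ * (R * δ) := by ring
    constructor
    · intro h
      refine ⟨h.1, ?_⟩
      change ‖s⁻¹ • (z.2 - z.1 • v0) - P' i - z.1 • v' i‖ ≤ R * (δ / s)
      rw [h2, h3]
      have := h.2
      gcongr
    · intro h
      refine ⟨h.1, ?_⟩
      have h4 : ‖s⁻¹ • (z.2 - z.1 • v0) - P' i - z.1 • v' i‖ ≤ R * (δ / s) := h.2
      rw [h2, h3] at h4
      exact le_of_mul_le_mul_left h4 (by positivity)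
  have hmult : ∀ z, mult T z = mult T' (φ z) := by
    intro z
    unfold mult
    refine Finset.sum_congr rfl fun i _ => ?_
    by_cases h : z ∈ T i
    · rw [indicator_of_mem h, indicator_of_mem ((hmem i z).1 h)]; rfl
    · rw [indicator_of_notMem h, indicator_of_notMem (fun hh => h ((hmem i z).2 hh))]
  set S' : Set (Pt d) := {x | ENNReal.ofReal (Fintype.card ι / L) ≤ mult T' x} with hS'
  have hS'm : MeasurableSet S' := measurableSet_le measurable_const (mult_meas hTm')
  have hSm : MeasurableSet {x | ENNReal.ofReal (Fintype.card ι / L) ≤ mult T x} :=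
    measurableSet_le measurable_const (mult_meas hTm)
  have h1 : ∫⁻ x in {x | ENNReal.ofReal (Fintype.card ι / L) ≤ mult T x}, mult T x ^ q =
      ∫⁻ z : Pt d, (S'.indicator (fun x => mult T' x ^ q)) (z.1, s⁻¹ • (z.2 - z.1 • v0)) := by
    rw [← lintegral_indicator hSm]
    apply lintegral_congr
    intro z
    by_cases hz : z ∈ {x | ENNReal.ofReal (Fintype.card ι / L) ≤ mult T x}
    · have hz' : φ z ∈ S' := by
        change ENNReal.ofReal (Fintype.card ι / L) ≤ mult T' (φ z)
        rw [← hmult]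
        exact hz
      rw [indicator_of_mem hz]
      change _ = S'.indicator (fun x => mult T' x ^ q) (φ z)
      rw [indicator_of_mem hz', hmult]
    · have hz' : φ z ∉ S' := by
        intro h
        apply hz
        change ENNReal.ofReal (Fintype.card ι / L) ≤ mult T z
        rw [hmult]
        exact h
      rw [indicator_of_notMem hz]
      change _ = S'.indicator (fun x => mult T' x ^ q) (φ z)
      rw [indicator_of_notMem hz']
  rw [h1, lint_aniso hs0 v0 (((mult_meas hTm').pow_const q).indicator hS'm),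
    lintegral_indicator hS'm]
  have hδ' : 0 < δ / s := by positivity
  have hδ'1 : δ / s < 1 := by rw [div_lt_one hs0]; exact hδs
  have h2 := key 𝒞 hd hR hq hC hε hlo hδ' hδ'1 hL b P' v' (by
    intro i
    rw [hv']
    dsimp only
    rw [norm_smul, norm_inv, Real.norm_eq_abs, abs_of_pos hs0, inv_mul_le_iff₀ hs0, mul_one]
    exact hvv i i0) (by
    intro i j hij
    rw [hv']
    dsimp only
    rw [← smul_sub, sub_sub_sub_cancel_right, norm_smul, norm_inv, Real.norm_eq_abs,
      abs_of_pos hs0, div_le_iff₀ hs0]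
    have := hs i j hij
    field_simp
    exact this) (𝒞.cell v0 hδ hδs hcl) (by
    rw [one_div_div]
    exact hM)
  refine (mul_le_mul_right h2 _).trans ?_
  rw [← ENNReal.ofReal_mul (by positivity)]
  apply ENNReal.ofReal_le_ofReal
  apply le_of_eq
  rw [div_pow]
  field_simp


/-- The scale-invariant inequality without a loss. -/
def LFC (𝒞 : Cls d) (R q C : ℝ) : Prop := ∀ δ : ℝ, 0 < δ → δ < 1 → ∀ {ι : Type} [Fintype ι]
    (b : ι → ℝ) (P v : ι → Fin d → ℝ), (∀ i, ‖v i‖ ≤ 1) → Sep δ v → 𝒞.mem δ P v →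
    ∫⁻ x, mult (fun i => tb R (R * δ) (b i) (P i) (v i)) x ^ q ≤
      ENNReal.ofReal (C * (δ ^ d * (Fintype.card ι : ℝ) ^ (q - 1 / (d : ℝ))))

/-- One level. -/
theorem level (𝒞 : Cls d) (hd : 1 ≤ d) {R q0 q ε C : ℝ} (hR : 1 ≤ R) (hq0 : 1 + 1 / (d : ℝ) ≤ q0) (hq : q0 < q)
    (hq2 : q ≤ 2) (hC : 0 ≤ C) (hε : 0 ≤ ε) (hlo : LoC 𝒞 R q0 ε C) {δ K s L : ℝ} (hδ : 0 < δ)
    (hK : 1 ≤ K) {ι : Type} [Fintype ι] [Nonempty ι] (b : ι → ℝ) (P v : ι → Fin d → ℝ)
    (hsep : Sep δ v) (hcl : 𝒞.mem δ P v) (hs : s = 2 * (δ * ((Fintype.card ι : ℝ) ^ (1 / (d : ℝ)) * K)))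
    (hL : L = 4 * 6 ^ d * K ^ (d + 1)) :
    ∫⁻ x in {x | ENNReal.ofReal (Fintype.card ι / (2 * K)) ≤
        mult (fun i => tb R (R * δ) (b i) (P i) (v i)) x ∧
        mult (fun i => tb R (R * δ) (b i) (P i) (v i)) x ≤ ENNReal.ofReal (Fintype.card ι / K)},
      mult (fun i => tb R (R * δ) (b i) (P i) (v i)) x ^ q ≤
    ENNReal.ofReal ((Fintype.card ι / (2 * K)) ^ (q - 2) *
      (2 * (Fintype.card ι : ℝ) ^ 2 * ((2 * (R * δ)) ^ d * (4 * (R * δ) / s)))) +
    ENNReal.ofReal ((Fintype.card ι / K) ^ (q - q0) * (2 * 3 ^ d) ^ q0 *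
      (8 * C * ((41088 * R * L ^ 7) ^ ε * (δ ^ d *
        (2 * (Fintype.card ι : ℝ)) ^ (q0 - 1 / (d : ℝ)))))) := by
  classical
  set N : ℝ := (Fintype.card ι : ℝ) with hN
  have hN1 : 1 ≤ N := by
    rw [hN]
    exact_mod_cast Fintype.card_pos
  have hN0 : 0 < N := by linarith
  have hK0 : 0 < K := by linarith
  have hd0 : (0 : ℝ) < d := by exact_mod_cast hd
  have hp0 : 0 < 1 / (d : ℝ) := by positivity
  have hq00 : 0 < q0 := by linarith
  have hqp : 0 < q := by linarith
  have hβ : 1 ≤ q0 - 1 / (d : ℝ) := by linarith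
  have hR0 : 0 < R := by linarith
  have hs0 : 0 < s := by rw [hs]; positivity
  have hNp : 1 ≤ N ^ (1 / (d : ℝ)) := Real.one_le_rpow hN1 hp0.le
  have hδs : δ < s := by
    rw [hs]
    have : 1 ≤ N ^ (1 / (d : ℝ)) * K := by nlinarith
    nlinarith
  have hKd : 1 ≤ K ^ (d + 1) := one_le_pow₀ hK
  have hL1 : 1 ≤ L := by
    rw [hL]
    have : (1 : ℝ) ≤ 6 ^ d := one_le_pow₀ (by norm_num)
    nlinarith
  have hL0 : 0 < L := by linarith
  set T : ι → Set (Pt d) := fun i => tb R (R * δ) (b i) (P i) (v i) with hT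
  have hTm : ∀ i, MeasurableSet (T i) := fun i => tb_meas _ _ _ _ _
  set κ : ι → Fin d → ℤ := fun i k => ⌊v i k / s⌋ with hκ
  set thr : ℝ := N / (4 * 3 ^ d * K) with hthr
  have hthr0 : 0 < thr := by positivity
  set Bc : (Fin d → ℤ) → Set (Pt d) := fun c => {x | ENNReal.ofReal thr ≤ pmult T κ c x} with hBc
  have hpm : ∀ c, Measurable fun x => pmult T κ c x := by
    intro c
    simp only [pmult_eq]
    exact mult_meas fun i => tb_meas _ _ _ _ _
  have hBm : ∀ c, MeasurableSet (Bc c) := fun c => measurableSet_le measurable_const (hpm c)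
  set n : (Fin d → ℤ) → ℝ := fun c => (Fintype.card {i // κ i = c} : ℝ) with hn
  have hn0 : ∀ c, 0 ≤ n c := fun c => by positivity
  have hnN : ∀ c, n c ≤ N := by
    intro c
    rw [hn, hN]
    dsimp only
    exact_mod_cast Fintype.card_subtype_le _
  have hcell : ∀ c, ∫⁻ x in Bc c, pmult T κ c x ^ q0 ≤
      ENNReal.ofReal (8 * C * ((41088 * R * L ^ 7) ^ ε * (δ ^ d *
        (2 * n c) ^ (q0 - 1 / (d : ℝ))))) := by
    intro c
    rcases lt_or_ge (n c) thr with hlt | hge
    · have hemp : Bc c = ∅ := by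
        ext x
        simp only [hBc, mem_ofPred_eq, mem_empty_iff_false, iff_false, not_le]
        rw [pmult_eq]
        refine lt_of_le_of_lt (mult_le _ _) ?_
        rw [← ENNReal.ofReal_natCast]
        exact (ENNReal.ofReal_lt_ofReal_iff hthr0).2 hlt
      rw [hemp]
      simp
    · have hnc0 : 0 < n c := by linarith
      have hne : Nonempty {i // κ i = c} := by
        rw [← Fintype.card_pos_iff]
        have : (0 : ℝ) < (Fintype.card {i // κ i = c} : ℝ) := hnc0
        exact_mod_cast this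
      have h1 : Bc c ⊆ {x | ENNReal.ofReal ((Fintype.card {i // κ i = c} : ℝ) / L) ≤
          mult (fun i : {i // κ i = c} => tb R (R * δ) (b i) (P i) (v i)) x} := by
        intro x hx
        simp only [hBc, mem_ofPred_eq] at hx
        rw [pmult_eq] at hx
        refine le_trans ?_ hx
        apply ENNReal.ofReal_le_ofReal
        calc (Fintype.card {i // κ i = c} : ℝ) / L ≤ N / L := by
              gcongr
              exact hnN c
          _ ≤ thr := by
              rw [hthr]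
              gcongr
              rw [hL]
              have e1 : (3 : ℝ) ^ d ≤ 6 ^ d := by gcongr; norm_num
              have e2 : K ≤ K ^ (d + 1) := by
                calc K = K ^ 1 := (pow_one K).symm
                  _ ≤ _ := pow_le_pow_right₀ hK (by omega)
              gcongr
      simp only [pmult_eq]
      refine (lintegral_mono_set h1).trans ?_
      refine cell_part 𝒞 hd hR hq0 hC hε hlo hδ hδs hL1 (fun i : {i // κ i = c} => b i)
        (fun i : {i // κ i = c} => P i) (fun i : {i // κ i = c} => v i) ?_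
        (fun i j hij => hsep i j fun h => hij (Subtype.ext h))
        (𝒞.sub (fun i : {i // κ i = c} => (i : ι)) hcl) ?_
      · intro i j
        rw [pi_norm_le_iff_of_nonneg hs0.le]
        intro k
        have h4 : ⌊v i k / s⌋ = ⌊v j k / s⌋ := congrFun (i.2.trans j.2.symm) k
        have h5 := Int.abs_sub_lt_one_of_floor_eq_floor h4
        rw [Pi.sub_apply, Real.norm_eq_abs]
        have h6 : v i k - v j k = (v i k / s - v j k / s) * s := by field_simp
        rw [h6, abs_mul, abs_of_pos hs0]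
        nlinarith
      · have e1 : s / δ = 2 * K * N ^ (1 / (d : ℝ)) := by rw [hs]; field_simp
        have e2 : (N ^ (1 / (d : ℝ))) ^ d = N := by
          rw [← Real.rpow_natCast, ← Real.rpow_mul hN0.le, one_div, inv_mul_cancel₀ hd0.ne',
            Real.rpow_one]
        rw [e1, mul_pow, e2]
        have e3 : N = 4 * 3 ^ d * K * thr := by rw [hthr]; field_simp
        calc (2 * K) ^ d * N = (2 * K) ^ d * (4 * 3 ^ d * K * thr) := by rw [← e3]
          _ ≤ (2 * K) ^ d * (4 * 3 ^ d * K * n c) := by gcongr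
          _ = L * n c := by
              rw [hL, mul_pow, pow_succ]
              have : (6 : ℝ) ^ d = 2 ^ d * 3 ^ d := by rw [← mul_pow]; norm_num
              rw [this]
              ring
  set A : Set (Pt d) := {x | ENNReal.ofReal (N / (2 * K)) ≤ mult T x ∧
      mult T x ≤ ENNReal.ofReal (N / K)} with hA
  have hAm : MeasurableSet A := (measurableSet_le measurable_const (mult_meas hTm)).inter
    (measurableSet_le (mult_meas hTm) measurable_const)
  set c1 : ℝ≥0∞ := ENNReal.ofReal ((N / (2 * K)) ^ (q - 2)) with hc1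
  set c2 : ℝ≥0∞ := ENNReal.ofReal ((N / K) ^ (q - q0) * (2 * 3 ^ d) ^ q0) with hc2
  have hpt : ∀ x ∈ A, mult T x ^ q ≤ (tr s T v).indicator (fun x => c1 * mult T x ^ (2 : ℝ)) x +
      c2 * ∑ c ∈ Finset.univ.image κ, (Bc c).indicator (fun x => pmult T κ c x ^ q0) x := by
    intro x hx
    by_cases htr : x ∈ tr s T v
    · rw [indicator_of_mem htr]
      refine le_trans ?_ le_self_add
      have hpos : mult T x ≠ 0 := by
        intro h
        have := hx.1
        rw [h, nonpos_iff_eq_zero, ENNReal.ofReal_eq_zero] at this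
        have h' : 0 < N / (2 * K) := by positivity
        linarith
      calc mult T x ^ q = mult T x ^ (q - 2) * mult T x ^ (2 : ℝ) := by
            rw [← ENNReal.rpow_add _ _ hpos (mult_ne_top T x)]
            congr 1
            ring
        _ ≤ c1 * mult T x ^ (2 : ℝ) := by
            gcongr
            rw [hc1, ← ENNReal.ofReal_rpow_of_pos (by positivity)]
            have e1 : q - 2 = -(2 - q) := by ring
            rw [e1, ENNReal.rpow_neg, ENNReal.rpow_neg, ENNReal.inv_le_inv]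
            exact ENNReal.rpow_le_rpow hx.1 (by linarith)
    · rw [indicator_of_notMem htr, zero_add]
      obtain ⟨c, hc, hle⟩ := not_tr hs0 htr
      have hcB : x ∈ Bc c := by
        change ENNReal.ofReal thr ≤ pmult T κ c x
        have h1 : ENNReal.ofReal (N / (2 * K)) ≤ ENNReal.ofReal (2 * 3 ^ d) * pmult T κ c x := by
          refine hx.1.trans (hle.trans (le_of_eq ?_))
          have e1 : ENNReal.ofReal (2 * 3 ^ d) = 2 * 3 ^ d := by
            rw [ENNReal.ofReal_mul (by norm_num), ENNReal.ofReal_pow (by norm_num)]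
            norm_num
          rw [e1]
        have h2 : N / (2 * K) = (2 * 3 ^ d) * thr := by rw [hthr]; field_simp; ring
        rw [h2, ENNReal.ofReal_mul (by positivity)] at h1
        exact (ENNReal.mul_le_mul_iff_right (by
          rw [Ne, ENNReal.ofReal_eq_zero, not_le]; positivity) ENNReal.ofReal_ne_top).1 h1
      have h3 : pmult T κ c x ^ q0 ≤
          ∑ c ∈ Finset.univ.image κ, (Bc c).indicator (fun x => pmult T κ c x ^ q0) x := by
        calc pmult T κ c x ^ q0 = (Bc c).indicator (fun x => pmult T κ c x ^ q0) x := by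
              rw [indicator_of_mem hcB]
          _ ≤ _ := Finset.single_le_sum
              (f := fun c => (Bc c).indicator (fun x => pmult T κ c x ^ q0) x)
              (fun _ _ => zero_le) hc
      calc mult T x ^ q = mult T x ^ (q - q0) * mult T x ^ q0 := by
            rw [← ENNReal.rpow_add_of_nonneg _ _ (by linarith) hq00.le]
            congr 1
            ring
        _ ≤ ENNReal.ofReal ((N / K) ^ (q - q0)) *
            (ENNReal.ofReal ((2 * 3 ^ d) ^ q0) * pmult T κ c x ^ q0) := by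
            gcongr ?_ * ?_
            · rw [← ENNReal.ofReal_rpow_of_nonneg (by positivity) (by linarith)]
              exact ENNReal.rpow_le_rpow hx.2 (by linarith)
            · rw [← ENNReal.ofReal_rpow_of_nonneg (by positivity) hq00.le,
                ← ENNReal.mul_rpow_of_nonneg _ _ hq00.le]
              apply ENNReal.rpow_le_rpow _ hq00.le
              refine hle.trans (le_of_eq ?_)
              have e1 : ENNReal.ofReal (2 * 3 ^ d) = 2 * 3 ^ d := by
                rw [ENNReal.ofReal_mul (by norm_num), ENNReal.ofReal_pow (by norm_num)]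
                norm_num
              rw [e1]
        _ = c2 * pmult T κ c x ^ q0 := by
            rw [hc2, ← mul_assoc, ← ENNReal.ofReal_mul (by positivity)]
        _ ≤ _ := by gcongr
  have hm1 : Measurable ((tr s T v).indicator (fun x => c1 * mult T x ^ (2 : ℝ))) :=
    (((mult_meas hTm).pow_const _).const_mul _).indicator (tr_meas s hTm v)
  have hm2 : ∀ c, Measurable ((Bc c).indicator (fun x => pmult T κ c x ^ q0)) := fun c =>
    ((hpm c).pow_const _).indicator (hBm c)
  calc ∫⁻ x in A, mult T x ^ q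
      ≤ ∫⁻ x in A, ((tr s T v).indicator (fun x => c1 * mult T x ^ (2 : ℝ)) x +
      c2 * ∑ c ∈ Finset.univ.image κ, (Bc c).indicator (fun x => pmult T κ c x ^ q0) x) :=
        setLIntegral_mono' hAm hpt
    _ ≤ ∫⁻ x, ((tr s T v).indicator (fun x => c1 * mult T x ^ (2 : ℝ)) x +
      c2 * ∑ c ∈ Finset.univ.image κ, (Bc c).indicator (fun x => pmult T κ c x ^ q0) x) :=
        setLIntegral_le_lintegral _ _
    _ = c1 * (∫⁻ x in tr s T v, mult T x ^ (2 : ℝ)) +
        c2 * ∑ c ∈ Finset.univ.image κ, ∫⁻ x in Bc c, pmult T κ c x ^ q0 := by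
        rw [lintegral_add_left hm1, lintegral_indicator (tr_meas s hTm v),
          lintegral_const_mul _ ((mult_meas hTm).pow_const _),
          lintegral_const_mul _ (Finset.measurable_sum _ fun c _ => hm2 c),
          lintegral_finsetSum _ fun c _ => hm2 c]
        have e1 : ∑ c ∈ Finset.univ.image κ,
            ∫⁻ x, (Bc c).indicator (fun x => pmult T κ c x ^ q0) x =
            ∑ c ∈ Finset.univ.image κ, ∫⁻ x in Bc c, pmult T κ c x ^ q0 :=
          Finset.sum_congr rfl fun c _ => lintegral_indicator (hBm c) _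
        rw [e1]
    _ ≤ c1 * ENNReal.ofReal (2 * N ^ 2 * ((2 * (R * δ)) ^ d * (4 * (R * δ) / s))) +
        c2 * ∑ c ∈ Finset.univ.image κ, ENNReal.ofReal (8 * C * ((41088 * R * L ^ 7) ^ ε * (δ ^ d *
        (2 * n c) ^ (q0 - 1 / (d : ℝ))))) := by
        refine add_le_add (mul_le_mul_right ?_ _) (mul_le_mul_right ?_ _)
        · exact tr_int (by positivity) hs0 b P v
        · exact Finset.sum_le_sum fun c _ => hcell c
    _ ≤ _ := by
        rw [hc1, hc2, ← ENNReal.ofReal_mul (by positivity),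
          ← ENNReal.ofReal_sum_of_nonneg (fun c _ => by positivity),
          ← ENNReal.ofReal_mul (by positivity)]
        gcongr
        rw [← Finset.mul_sum, ← Finset.mul_sum, ← Finset.mul_sum]
        gcongr
        refine (sum_pow_super _ (fun c => by positivity) hβ).trans ?_
        apply Real.rpow_le_rpow (by positivity) _ (by linarith)
        rw [← Finset.mul_sum]
        have := sum_card_parts κ
        rw [← hN] at this
        rw [← this]

/-- Removal of the loss. -/
theorem loss_removal (𝒞 : Cls d) (hd : 1 ≤ d) {R q0 q : ℝ} (hR : 1 ≤ R) (hq0 : 1 + 1 / (d : ℝ) ≤ q0)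
    (hq : q0 < q) (hq2 : q ≤ 2)
    (hlo : ∀ ε : ℝ, 0 < ε → ∃ C : ℝ, 0 ≤ C ∧ LoC 𝒞 R q0 ε C) : ∃ C : ℝ, 0 ≤ C ∧ LFC 𝒞 R q C := by
  have hd0 : (0 : ℝ) < d := by exact_mod_cast hd
  have hp0 : 0 < 1 / (d : ℝ) := by positivity
  set p : ℝ := 1 / (d : ℝ) with hp
  set γ : ℝ := (q - q0) / 2 with hγ
  have hγ0 : 0 < γ := by rw [hγ]; linarith
  set ε : ℝ := γ / (7 * (d + 1)) with hε
  have hε0 : 0 < ε := by positivity
  obtain ⟨C, hC, hlo⟩ := hlo ε hε0
  have hR0 : 0 < R := by linarith
  have hq00 : 0 < q0 := by linarith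
  have hqp : 0 < q := by linarith
  set H : ℝ := 2 * (2 * R) ^ d * (2 * R) * 2 ^ (2 - q) with hH
  set G : ℝ := (2 * 3 ^ d) ^ q0 * (8 * C * ((41088 * R * (4 * 6 ^ d) ^ 7) ^ ε *
    2 ^ (q0 - p))) with hG
  have hH0 : 0 ≤ H := by positivity
  have hG0 : 0 ≤ G := by positivity
  set r : ℝ := 2 ^ (-γ) with hr
  have hr0 : 0 < r := by positivity
  have hr1 : r < 1 := Real.rpow_lt_one_of_one_lt_of_neg (by norm_num) (by linarith)
  refine ⟨(H + G) * (1 - r)⁻¹, mul_nonneg (by positivity) (inv_nonneg.2 (by linarith)), ?_⟩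
  intro δ hδ hδ1 ι _ b P v hv hs hcl
  set T : ι → Set (Pt d) := fun i => tb R (R * δ) (b i) (P i) (v i) with hT
  have hTm : ∀ i, MeasurableSet (T i) := fun i => tb_meas _ _ _ _ _
  rcases isEmpty_or_nonempty ι with hemp | hne
  · have h1 : ∀ x, mult T x ^ q = 0 := by
      intro x
      unfold mult
      rw [Finset.univ_eq_empty, Finset.sum_empty, ENNReal.zero_rpow_of_pos hqp]
    simp only [h1, lintegral_zero]
    exact zero_le
  set N : ℝ := (Fintype.card ι : ℝ) with hN
  have hN1 : 1 ≤ N := by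
    rw [hN]
    exact_mod_cast Fintype.card_pos
  have hN0 : 0 < N := by linarith
  set J : ℕ := Fintype.card ι with hJ
  set A : ℕ → Set (Pt d) := fun k => {x | ENNReal.ofReal (N / (2 * 2 ^ k)) ≤ mult T x ∧
      mult T x ≤ ENNReal.ofReal (N / 2 ^ k)} with hA
  have hAm : ∀ k, MeasurableSet (A k) := fun k =>
    (measurableSet_le measurable_const (mult_meas hTm)).inter
      (measurableSet_le (mult_meas hTm) measurable_const)
  have hpt : ∀ x, mult T x ^ q ≤ ∑ k ∈ Finset.range J, (A k).indicator (fun x => mult T x ^ q) x := by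
    intro x
    rcases mult_zero_or T x with h0 | h1
    · rw [h0, ENNReal.zero_rpow_of_pos hqp]; exact zero_le
    obtain ⟨f, hf⟩ : ∃ f : ℝ≥0, mult T x = f :=
      ⟨(mult T x).toNNReal, (ENNReal.coe_toNNReal (mult_ne_top T x)).symm⟩
    have hf1 : (1 : ℝ) ≤ f := by
      rw [hf] at h1
      exact_mod_cast h1
    have hfN : (f : ℝ) ≤ N := by
      have := mult_le T x
      rw [hf] at this
      rw [hN]
      exact_mod_cast this
    have hf0 : (0 : ℝ) < f := by linarith
    have h2 : 1 ≤ N / f := by rw [le_div_iff₀ hf0]; linarith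
    obtain ⟨k, hk1, hk2⟩ := exists_nat_pow_near h2 (by norm_num : (1 : ℝ) < 2)
    have hkJ : k < J := by
      by_contra hcon
      rw [not_lt] at hcon
      have h3 : (J : ℝ) < 2 ^ J := by exact_mod_cast Nat.lt_two_pow_self
      have h4 : (2 : ℝ) ^ J ≤ 2 ^ k := pow_le_pow_right₀ (by norm_num) hcon
      have h5 : N / f ≤ N := div_le_self hN0.le hf1
      linarith
    have hF : mult T x = ENNReal.ofReal f := by rw [hf]; simp
    have hxA : x ∈ A k := by
      refine ⟨?_, ?_⟩
      · rw [hF]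
        apply ENNReal.ofReal_le_ofReal
        rw [div_le_iff₀ (by positivity)]
        rw [div_lt_iff₀ hf0, pow_succ] at hk2
        linarith
      · rw [hF]
        apply ENNReal.ofReal_le_ofReal
        rw [le_div_iff₀ (by positivity)]
        rw [le_div_iff₀ hf0] at hk1
        linarith
    calc mult T x ^ q = (A k).indicator (fun x => mult T x ^ q) x := by rw [indicator_of_mem hxA]
      _ ≤ _ := Finset.single_le_sum (f := fun k => (A k).indicator (fun x => mult T x ^ q) x)
          (fun _ _ => zero_le) (Finset.mem_range.2 hkJ)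
  have hlev : ∀ k : ℕ, ∫⁻ x in A k, mult T x ^ q ≤
      ENNReal.ofReal ((H + G) * (δ ^ d * N ^ (q - p)) * r ^ k) := by
    intro k
    have hK : (1 : ℝ) ≤ 2 ^ k := one_le_pow₀ (by norm_num)
    set K : ℝ := 2 ^ k with hKdef
    have hK0 : 0 < K := by linarith
    refine (level 𝒞 hd hR hq0 hq hq2 hC hε0.le hlo hδ hK b P v hs hcl rfl rfl).trans ?_
    rw [← ENNReal.ofReal_add (by positivity) (by positivity)]
    apply ENNReal.ofReal_le_ofReal
    have hrk : r ^ k = K ^ (-γ) := by
      rw [hr, hKdef, ← Real.rpow_natCast, ← Real.rpow_natCast, ← Real.rpow_mul (by norm_num),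
        ← Real.rpow_mul (by norm_num), mul_comm]
    have h1 : (N / (2 * K)) ^ (q - 2) * (2 * N ^ 2 * ((2 * (R * δ)) ^ d *
        (4 * (R * δ) / (2 * (δ * (N ^ p * K)))))) = H * (δ ^ d * N ^ (q - p)) * K ^ (1 - q) := by
      have e1 : (N / (2 * K)) ^ (q - 2) = N ^ (q - 2) * (2 ^ (2 - q) * K ^ (2 - q)) := by
        rw [Real.div_rpow hN0.le (by positivity), Real.mul_rpow (by norm_num) hK0.le,
          div_eq_mul_inv, mul_inv, ← Real.rpow_neg (by norm_num), ← Real.rpow_neg hK0.le]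
        congr 3 <;> ring
      have e2 : N ^ (q - p) = N ^ (q - 2) * N ^ 2 * (N ^ p)⁻¹ := by
        rw [← Real.rpow_natCast, ← Real.rpow_neg hN0.le, ← Real.rpow_add hN0, ← Real.rpow_add hN0]
        congr 1
        push_cast
        ring
      have e3 : K ^ (1 - q) = K ^ (2 - q) * K⁻¹ := by
        rw [← Real.rpow_neg_one, ← Real.rpow_add hK0]
        congr 1
        ring
      rw [e1, e2, e3, hH]
      have hNp : 0 < N ^ p := by positivity
      have e4 : (2 * (R * δ)) ^ d = (2 * R) ^ d * δ ^ d := by rw [← mul_pow]; congr 1; ring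
      rw [e4]
      field_simp
      ring
    have h2 : (N / K) ^ (q - q0) * (2 * 3 ^ d) ^ q0 *
      (8 * C * ((41088 * R * (4 * 6 ^ d * K ^ (d + 1)) ^ 7) ^ ε * (δ ^ d *
        (2 * N) ^ (q0 - p)))) = G * (δ ^ d * N ^ (q - p)) * K ^ (-γ) := by
      have e1 : (N / K) ^ (q - q0) = N ^ (q - q0) * K ^ (-(q - q0)) := by
        rw [Real.div_rpow hN0.le hK0.le, div_eq_mul_inv, ← Real.rpow_neg hK0.le]
      have e2 : (41088 * R * (4 * 6 ^ d * K ^ (d + 1)) ^ 7) ^ ε =
          (41088 * R * (4 * 6 ^ d) ^ 7) ^ ε * K ^ γ := by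
        have e3 : 41088 * R * (4 * 6 ^ d * K ^ (d + 1)) ^ 7 =
            (41088 * R * (4 * 6 ^ d) ^ 7) * K ^ ((d + 1) * 7) := by
          rw [mul_pow, ← pow_mul]
          ring
        rw [e3, Real.mul_rpow (by positivity) (by positivity)]
        congr 1
        rw [← Real.rpow_natCast, ← Real.rpow_mul hK0.le]
        congr 1
        rw [hε]
        push_cast
        field_simp
      have e4 : K ^ (-γ) = K ^ (-(q - q0)) * K ^ γ := by
        rw [← Real.rpow_add hK0]
        congr 1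
        rw [hγ]; ring
      have e5 : N ^ (q - p) = N ^ (q - q0) * N ^ (q0 - p) := by
        rw [← Real.rpow_add hN0]
        congr 1
        ring
      rw [e1, e2, e4, e5, hG, Real.mul_rpow (by norm_num : (0 : ℝ) ≤ 2) hN0.le]
      ring
    rw [h1, h2, hrk]
    have h3 : K ^ (1 - q) ≤ K ^ (-γ) := by
      apply Real.rpow_le_rpow_of_exponent_le hK
      rw [hγ]
      linarith
    have h4 : 0 ≤ δ ^ d * N ^ (q - p) := by positivity
    calc H * (δ ^ d * N ^ (q - p)) * K ^ (1 - q) + G * (δ ^ d * N ^ (q - p)) * K ^ (-γ)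
        ≤ H * (δ ^ d * N ^ (q - p)) * K ^ (-γ) + G * (δ ^ d * N ^ (q - p)) * K ^ (-γ) := by gcongr
      _ = _ := by ring
  calc ∫⁻ x, mult T x ^ q
      ≤ ∫⁻ x, ∑ k ∈ Finset.range J, (A k).indicator (fun x => mult T x ^ q) x :=
        lintegral_mono hpt
    _ = ∑ k ∈ Finset.range J, ∫⁻ x in A k, mult T x ^ q := by
        rw [lintegral_finsetSum _ fun k _ => ((mult_meas hTm).pow_const _).indicator (hAm k)]
        refine Finset.sum_congr rfl fun k _ => ?_
        rw [lintegral_indicator (hAm k)]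
    _ ≤ ∑ k ∈ Finset.range J, ENNReal.ofReal ((H + G) * (δ ^ d * N ^ (q - p)) * r ^ k) :=
        Finset.sum_le_sum fun k _ => hlev k
    _ = ENNReal.ofReal ((H + G) * (δ ^ d * N ^ (q - p)) * ∑ k ∈ Finset.range J, r ^ k) := by
        rw [← ENNReal.ofReal_sum_of_nonneg (fun k _ => by positivity), ← Finset.mul_sum]
    _ ≤ _ := by
        apply ENNReal.ofReal_le_ofReal
        have h1 : ∑ k ∈ Finset.range J, r ^ k ≤ (1 - r)⁻¹ := by
          rw [← tsum_geometric_of_lt_one hr0.le hr1]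
          exact (summable_geometric_of_lt_one hr0.le hr1).sum_le_tsum _ fun _ _ => by positivity
        calc (H + G) * (δ ^ d * N ^ (q - p)) * ∑ k ∈ Finset.range J, r ^ k
            ≤ (H + G) * (δ ^ d * N ^ (q - p)) * (1 - r)⁻¹ := by gcongr
          _ = _ := by ring

end Pool.Agent.X160.Er
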